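import Pool.Agent.Lib.MP_1b6faf_co.Un.Main
import Pool.Agent.Lib.MP_1b6faf_co.Un.Count

/-!
Pairs with a common extremal graph: the answer outside two windows of bounded width.
-/

namespace Pool.Agent.Results.MP_1b6faf_co.BoundedWindows

open Pool.Agent.Lib.MP_1b6faf_co Pool.Agent.Lib.MP_1b6faf_co.H8 Pool.Agent.Lib.MP_1b6faf_co.Un

/-- maximum degree at most `D` and clique number at most `om` -/
def InClass (D om : ℕ) {V : Type} (G : SimpleGraph V) : Prop :=
  (∀ v, (G.neighborSet v).ncard ≤ D) ∧ G.CliqueFree (om + 1)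

/-- number of `t`-cliques per vertex -/
noncomputable def dens (t : ℕ) {V : Type} (G : SimpleGraph V) : ℝ :=
  ((G.cliqueSet t).ncard : ℝ) / (Nat.card V : ℝ)

/-- supremum of the density over all nonempty finite graphs of the class -/
noncomputable def best (t D om : ℕ) : ℝ :=
  sSup {x : ℝ | ∃ (V : Type) (_ : Finite V) (_ : Nonempty V) (G : SimpleGraph V),
    InClass D om G ∧ x = dens t G}

/-- one graph of the class is `t`-extremal for every `t` from `3` to `om` -/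
def Common (D om : ℕ) : Prop :=
  ∃ (V : Type) (_ : Finite V) (_ : Nonempty V) (G : SimpleGraph V),
    InClass D om G ∧ ∀ t, 3 ≤ t → t ≤ om → dens t G = best t D om

lemma best_eq {s k r a : ℕ} (h : UB s k a r) {G : SimpleGraph ℕ} {S : Finset ℕ}
    (hW : Wit s a r G S) (hG : ∀ k, kc G (k + 3) S = rho s k a r * S.card) :
    dens (k + 3) (G.comap (Subtype.val : S → ℕ)) = rho s k a r ∧
      best (k + 3) (s * a + r) (s + 1) = rho s k a r := by
  have hn : (0 : ℝ) < S.card := by exact_mod_cast Finset.card_pos.2 hW.1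
  have h1 : dens (k + 3) (G.comap (Subtype.val : S → ℕ)) = rho s k a r := by
    unfold dens
    rw [dens_restrict, hG, mul_div_cancel_right₀ _ hn.ne']
  refine ⟨h1, IsGreatest.csSup_eq ⟨⟨S, inferInstance, hW.restrict.1, _, hW.restrict.2, h1.symm⟩, ?_⟩⟩
  rintro x ⟨V, _, _, G', hG', rfl⟩
  exact h V G' hG'.1 hG'.2

lemma le_best {s r a : ℕ} {G : SimpleGraph ℕ} {S : Finset ℕ} (hW : Wit s a r G S) (t : ℕ) :
    kc G (t + 1) S / S.card ≤ best (t + 1) (s * a + r) (s + 1) := by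
  rw [← dens_restrict]
  refine le_csSup ⟨((s * a + r : ℕ) : ℝ) ^ t, ?_⟩
    ⟨S, inferInstance, hW.restrict.1, _, hW.restrict.2, rfl⟩
  rintro x ⟨V', _, _, G'', hG'', rfl⟩
  exact densk_le G'' t hG''.1

lemma yes {s a r : ℕ} (ha : 1 ≤ a) (hr : r < s)
    (h : 3 * (r * (a + 1)) + 10 ^ 250 * a ≤ s * a + r) : Common (s * a + r) (s + 1) := by
  obtain ⟨L, S, hW, hL⟩ := exists_turan s a r hr
  refine ⟨S, inferInstance, hW.restrict.1, _, hW.restrict.2, fun t ht1 ht2 => ?_⟩
  obtain ⟨k, rfl⟩ : ∃ k, t = k + 3 := ⟨t - 3, by omega⟩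
  have hU := posU (k := k) ha hr (by omega) h
  rw [(best_eq hU hW hL).1, (best_eq hU hW hL).2]

lemma no {s a r : ℕ} (ha : 1 ≤ a) (hr : r + 10 ^ 250 ≤ s)
    (hc : s * a + r + 3 + 3 * (a * (s - r) % 2) ≤ 3 * (r * (a + 1))) :
    ¬ Common (s * a + r) (s + 1) := by
  rintro ⟨V, _, _, G, hG, hall⟩
  have h0 : 0 < 10 ^ 250 := by positivity
  obtain ⟨L, S, hW, hL⟩ := exists_turan s a r (by omega)
  obtain ⟨k, hk, G', S', hW', h⟩ := negU ha hr hc
  have h1 := le_best hW' 2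
  rw [← hall 3 le_rfl (by omega)] at h1
  have h2 := h V G hG.1 hG.2 h1
  have h3 := le_best hW (k + 2)
  have hn : (0 : ℝ) < S.card := by exact_mod_cast Finset.card_pos.2 hW.1
  rw [← hall (k + 3) (by omega) (by omega), hL, mul_div_cancel_right₀ _ hn.ne'] at h3
  exact absurd h2 (not_lt.2 h3)

lemma core (D s : ℕ) (h1 : 2 ≤ s) (h2 : s ≤ D)
    (h : 3 * (D % s * (D / s + 1)) + 10 ^ 250 * (D / s) ≤ D ∨
      (D + 3 + 3 * (D / s * (s - D % s) % 2) ≤ 3 * (D % s * (D / s + 1)) ∧ D % s + 10 ^ 250 ≤ s)) :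
    Common D (s + 1) ↔ 3 * (D % s * (D / s + 1)) < D := by
  have hr : D % s < s := Nat.mod_lt _ (by omega)
  have ha : 1 ≤ D / s := Nat.div_pos h2 (by omega)
  have hDe : D = s * (D / s) + D % s := (Nat.div_add_mod D s).symm
  generalize D / s = a at *
  generalize D % s = r at *
  subst hDe
  rcases h with h | h
  · have : 0 < 10 ^ 250 * a := by positivity
    exact iff_of_true (yes ha hr h) (by omega)
  · exact iff_of_false (no ha h.2 h.1) (by omega)

theorem result : ∃ C : ℕ, ∀ D om : ℕ, 3 ≤ om → om ≤ D + 1 →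
    (3 * (D % (om - 1) * (D / (om - 1) + 1)) + C * (D / (om - 1)) ≤ D ∨
      (D + 3 + 3 * (D / (om - 1) * (om - 1 - D % (om - 1)) % 2)
        ≤ 3 * (D % (om - 1) * (D / (om - 1) + 1)) ∧ D % (om - 1) + C ≤ om - 1)) →
    (Common D om ↔ 3 * (D % (om - 1) * (D / (om - 1) + 1)) < D) := by
  refine ⟨10 ^ 250, fun D om b1 b2 b3 => ?_⟩
  obtain ⟨s, rfl⟩ : ∃ s, om = s + 1 := ⟨om - 1, by omega⟩
  rw [Nat.add_sub_cancel] at *
  exact core D s (by omega) (by omega) b3

/-- corollary: the rule fails for at most a constant times the square root of `D` clique bounds,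
and a third of them, up to such an error, are common -/
theorem few : ∃ K : ℝ, ∀ D : ℕ, ({om | 3 ≤ om ∧ om ≤ D + 1 ∧
    ¬ (Common D om ↔ 3 * (D % (om - 1) * (D / (om - 1) + 1)) < D)}.ncard : ℝ) ≤ K * Real.sqrt D ∧
    |({om | 3 ≤ om ∧ om ≤ D + 1 ∧ Common D om}.ncard : ℝ) - D / 3| ≤ (K + 4) * Real.sqrt D := by
  refine ⟨2 * (10 ^ 250 : ℕ) + 10, fun D => ?_⟩
  rw [ncard_shift, ncard_shift]
  have := countU (10 ^ 250) (fun D s => Common D (s + 1) ↔ 3 * (D % s * (D / s + 1)) < D)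
    (fun D s h1 h2 h => core D s h1 h2 (h.imp_right fun c => ⟨by omega, c.2⟩)) D
  refine ⟨le_of_eq_of_le (congrArg _ (congrArg _ ?_)) this,
    thirdU (fun s => Common D (s + 1)) D (le_of_eq_of_le (congrArg _ (congrArg _ ?_)) this)⟩
  · ext s
    simp only [Finset.mem_filter, Nat.add_sub_cancel]
  · ext s
    simp only [Finset.mem_filter]

end Pool.Agent.Results.MP_1b6faf_co.BoundedWindows
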