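import Pool.Agent.Lib.MP_1b6faf_co.Bridge

/-!
Pairs with a common extremal graph: the complete answer for fixed clique bound and large degree bound.
-/

namespace Pool.Agent.Results.MP_1b6faf_co.LargeDegree

open Pool.Agent.Lib.MP_1b6faf_co

/-- maximum degree at most `D` and clique number at most `om` -/
def InClass (D om : ℕ) {V : Type} (G : SimpleGraph V) : Prop :=
  (∀ v, (G.neighborSet v).ncard ≤ D) ∧ G.CliqueFree (om + 1)

/-- number of `t`-cliques per vertex -/
noncomputable def dens (t : ℕ) {V : Type} (G : SimpleGraph V) : ℝ :=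
  ((G.cliqueSet t).ncard : ℝ) / (Nat.card V : ℝ)

/-- supremum of the density over all nonempty finite graphs of the class -/
noncomputable def best (t D om : ℕ) : ℝ :=
  sSup {x : ℝ | ∃ (V : Type) (_ : Finite V) (_ : Nonempty V) (G : SimpleGraph V),
    InClass D om G ∧ x = dens t G}

/-- one graph of the class is `t`-extremal for every `t` from `3` to `om` -/
def Common (D om : ℕ) : Prop :=
  ∃ (V : Type) (_ : Finite V) (_ : Nonempty V) (G : SimpleGraph V),
    InClass D om G ∧ ∀ t, 3 ≤ t → t ≤ om → dens t G = best t D om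

lemma best_eq {s k r a : ℕ} (h : UB s k r a) {G : SimpleGraph ℕ} {S : Finset ℕ}
    (hW : Wit s a r G S) (hG : ∀ k, kc G (k + 3) S = rho s k a r * S.card) :
    dens (k + 3) (G.comap (Subtype.val : S → ℕ)) = rho s k a r ∧
      best (k + 3) (s * a + r) (s + 1) = rho s k a r := by
  have hn : (0 : ℝ) < S.card := by exact_mod_cast Finset.card_pos.2 hW.1
  have h1 : dens (k + 3) (G.comap (Subtype.val : S → ℕ)) = rho s k a r := by
    unfold dens
    rw [dens_restrict, hG, mul_div_cancel_right₀ _ hn.ne']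
  refine ⟨h1, IsGreatest.csSup_eq ⟨⟨S, inferInstance, hW.restrict.1, _, hW.restrict.2, h1.symm⟩, ?_⟩⟩
  rintro x ⟨V, _, _, G', hG', rfl⟩
  exact (h V G' hG'.1 hG'.2).1

theorem result : ∀ om : ℕ, 3 ≤ om → ∃ D0 : ℕ, ∀ D : ℕ, D0 ≤ D →
    (Common D om ↔ (D % (om - 1) ≤ 1 ∨ 3 * (D % (om - 1)) + 1 < om)) := by
  intro om hom
  obtain ⟨s, rfl⟩ : ∃ s, om = s + 1 := ⟨om - 1, by omega⟩
  obtain ⟨a0, h0⟩ := uniform s
  refine ⟨s * (a0 + 20 * s ^ 2), fun D hD => ?_⟩
  rw [Nat.add_sub_cancel]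
  have hr : D % s < s := Nat.mod_lt _ (by omega)
  have ha : a0 + 20 * s ^ 2 ≤ D / s := (Nat.le_div_iff_mul_le (by omega)).2 (by rwa [mul_comm])
  have hDe : D = s * (D / s) + D % s := (Nat.div_add_mod D s).symm
  generalize D / s = a at ha hDe
  generalize D % s = r at hr hDe
  subst hDe
  obtain ⟨L, S, hW, hL⟩ := exists_turan s a r hr
  constructor
  · rintro ⟨V, _, _, G, hG, hall⟩
    by_contra hc
    obtain ⟨k, rfl⟩ : ∃ k, s = k + 2 := ⟨s - 2, by omega⟩
    have hU := h0 a (by omega) k r le_rfl hr (CI_top hr)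
    have h1 := hall (k + 3) (by omega) le_rfl
    rw [(best_eq hU hW hL).2] at h1
    have h2 := (hU V G hG.1 hG.2).2 h1
    obtain ⟨G', S', hW', hG'⟩ := exists_better (a := a) hr (by omega) (by omega) (by omega)
    have hn : (0 : ℝ) < S'.card := by exact_mod_cast Finset.card_pos.2 hW'.1
    have h3 : dens 3 (G'.comap (Subtype.val : S' → ℕ)) ≤ best 3 ((k + 2) * a + r) (k + 2 + 1) := by
      refine le_csSup ⟨(((k + 2) * a + r : ℕ) : ℝ) ^ 2, ?_⟩
        ⟨S', inferInstance, hW'.restrict.1, _, hW'.restrict.2, rfl⟩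
      rintro x ⟨V', _, _, G'', hG'', rfl⟩
      exact dens3_le G'' hG''.1
    rw [← hall 3 le_rfl hom] at h3
    unfold dens at h3
    rw [dens_restrict, div_le_iff₀ hn] at h3
    have := mul_le_mul_of_nonneg_right h2 hn.le
    linarith
  · intro hc
    refine ⟨S, inferInstance, hW.restrict.1, _, hW.restrict.2, fun t ht1 ht2 => ?_⟩
    obtain ⟨k, rfl⟩ : ∃ k, t = k + 3 := ⟨t - 3, by omega⟩
    have hU := h0 a (by omega) k r (by omega) hr (CI_pos (by omega) (by omega))
    rw [(best_eq hU hW hL).1, (best_eq hU hW hL).2]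

end Pool.Agent.Results.MP_1b6faf_co.LargeDegree
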