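import Pool.Agent.FS.C5Tri.All

/-!
The pairs with degree bound `3 ω - 4` have a common extremal graph; the exact clique densities.
-/

namespace Pool.Agent.Results.MP_1b6faf_co.PentagonFamily

open Finset Polynomial Pool.Agent.Lib.MP_1b6faf_co.A1 Pool.Agent.FS.C5Tri

/-- maximum degree at most `D` and clique number at most `om` -/
def InClass (D om : ℕ) {V : Type} (G : SimpleGraph V) : Prop :=
  (∀ v, (G.neighborSet v).ncard ≤ D) ∧ G.CliqueFree (om + 1)

/-- number of `t`-cliques per vertex -/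
noncomputable def dens (t : ℕ) {V : Type} (G : SimpleGraph V) : ℝ :=
  ((G.cliqueSet t).ncard : ℝ) / (Nat.card V : ℝ)

/-- supremum of the density over all nonempty finite graphs of the class -/
noncomputable def best (t D om : ℕ) : ℝ :=
  sSup {x : ℝ | ∃ (V : Type) (_ : Finite V) (_ : Nonempty V) (G : SimpleGraph V),
    InClass D om G ∧ x = dens t G}

theorem result : ∀ om : ℕ, 3 ≤ om →
    ∃ (V : Type) (_ : Finite V) (_ : Nonempty V) (G : SimpleGraph V),
      InClass (3 * om - 4) om G ∧ ∀ t, 3 ≤ t → t ≤ om →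
        dens t G = best t (3 * om - 4) om ∧
        dens t G = ((((1 + 5 * X + 5 * X ^ 2) * (1 + 3 * X) ^ (om - 2) : ℕ[X]).coeff t : ℕ) : ℝ) /
          (3 * (om : ℝ) - 1) := by
  intro om hom
  obtain ⟨q, rfl⟩ : ∃ q, om = q + 3 := ⟨om - 3, by omega⟩
  rw [show 3 * (q + 3) - 4 = 3 * q + 5 by omega, show q + 3 - 2 = q + 1 by omega,
    show 3 * ((q + 3 : ℕ) : ℝ) - 1 = 3 * q + 8 by push_cast; ring]
  have hin : InClass (3 * q + 5) (q + 3) (gs q) :=
    ⟨fun v => by rw [ncard_nbr, deg], free q⟩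
  refine ⟨_, inferInstance, inferInstance, gs q, hin, fun t h3 ht => ?_⟩
  have hl := lower_all q t
  have hu := fun (V : Type) [Fintype V] (G : SimpleGraph V) (hG : InClass (3 * q + 5) (q + 3) G) =>
    upper_all (G := G) (fun v => by rw [← ncard_nbr]; exact hG.1 v) (CF_of_free _ hG.2) h3 ht
  generalize ((1 + 5 * X + 5 * X ^ 2) * (1 + 3 * X) ^ (q + 1) : ℕ[X]).coeff t = c at *
  have up : ∀ (V : Type) (_ : Finite V) (_ : Nonempty V) (G : SimpleGraph V),
      InClass (3 * q + 5) (q + 3) G → dens t G ≤ (c : ℝ) / (3 * q + 8) := by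
    intro V _ _ G hG
    refine dens_le G fun _ => ?_
    rw [div_mul_eq_mul_div, le_div_iff₀ (by positivity), mul_comm]
    exact_mod_cast hu V G hG
  have h1 : dens t (gs q) = (c : ℝ) / (3 * q + 8) := by
    refine le_antisymm (up _ inferInstance inferInstance _ hin) ?_
    unfold dens
    rw [ncard_clique, Nat.card_eq_fintype_card, ← card_univ, card_V]
    push_cast
    gcongr
  refine ⟨?_, h1⟩
  symm
  unfold best
  refine IsGreatest.csSup_eq ⟨⟨_, inferInstance, inferInstance, gs q, hin, rfl⟩, ?_⟩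
  rintro x ⟨V, _, _, G, hG, rfl⟩
  rw [h1]
  exact up V inferInstance inferInstance G hG

end Pool.Agent.Results.MP_1b6faf_co.PentagonFamily
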