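import Pool.Agent.Lib.MP_1b6faf_co.H26Con

/-!
Pairs with a common extremal graph: the complete answer when the degree bound is less than twice
the clique bound minus one.
-/

namespace Pool.Agent.Results.MP_1b6faf_co.SmallDegree

open Finset Pool.Agent.Lib.MP_1b6faf_co.A1

/-- maximum degree at most `D` and clique number at most `om` -/
def InClass (D om : ℕ) {V : Type} (G : SimpleGraph V) : Prop :=
  (∀ v, (G.neighborSet v).ncard ≤ D) ∧ G.CliqueFree (om + 1)

/-- number of `t`-cliques per vertex -/
noncomputable def dens (t : ℕ) {V : Type} (G : SimpleGraph V) : ℝ :=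
  ((G.cliqueSet t).ncard : ℝ) / (Nat.card V : ℝ)

/-- supremum of the density over all nonempty finite graphs of the class -/
noncomputable def best (t D om : ℕ) : ℝ :=
  sSup {x : ℝ | ∃ (V : Type) (_ : Finite V) (_ : Nonempty V) (G : SimpleGraph V),
    InClass D om G ∧ x = dens t G}

/-- one graph of the class is `t`-extremal for every `t` from `3` to `om` -/
def Common (D om : ℕ) : Prop :=
  ∃ (V : Type) (_ : Finite V) (_ : Nonempty V) (G : SimpleGraph V),
    InClass D om G ∧ ∀ t, 3 ≤ t → t ≤ om → dens t G = best t D om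

lemma le_best {D om : ℕ} {G : SimpleGraph ℕ} {S : Finset ℕ} (h : Wit D om G S) (t : ℕ) :
    (K G S (t + 1) : ℝ) / S.card ≤ best (t + 1) D om := by
  rw [← dens_restrict]
  refine le_csSup ⟨U 0 (D + 1) (t + 1) / (D + 1), ?_⟩
    ⟨S, inferInstance, h.restrict.1, _, h.restrict.2, rfl⟩
  rintro x ⟨V, _, _, G', hG', rfl⟩
  exact dens_le G' fun _ => pos_zero (fun v => by rw [← ncard_nbr]; exact hG'.1 v) t

lemma common_of {D om : ℕ} {G : SimpleGraph ℕ} {S : Finset ℕ} (h : Wit D om G S)
    (hb : ∀ t, 3 ≤ t → ∀ (V : Type) [Fintype V] (G' : SimpleGraph V),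
      (∀ v, (nb G' v univ).card ≤ D) → CF G' univ om →
      (K G' univ t : ℝ) ≤ K G S t / S.card * (univ : Finset V).card) : Common D om := by
  refine ⟨S, inferInstance, h.restrict.1, _, h.restrict.2, fun t ht _ => ?_⟩
  symm
  refine IsGreatest.csSup_eq ⟨⟨S, inferInstance, h.restrict.1, _, h.restrict.2, rfl⟩, ?_⟩
  rintro x ⟨V, _, _, G', hG', rfl⟩
  unfold dens
  rw [dens_restrict]
  exact dens_le G' fun _ => hb t ht V G' (fun v => by rw [← ncard_nbr]; exact hG'.1 v)
    (CF_of_free _ hG'.2)

theorem result : ∀ D om : ℕ, 3 ≤ om → om ≤ D + 1 → D < 2 * (om - 1) →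
    (Common D om ↔ 5 * D + 3 ≤ 6 * om) := by
  intro D om h3 h1 h2
  obtain ⟨s, rfl⟩ : ∃ s, om = s + 1 := ⟨om - 1, by omega⟩
  obtain ⟨r, rfl⟩ : ∃ r, D = s + r := ⟨D - s, by omega⟩
  constructor
  · rintro ⟨V, _, _, G, hG, hall⟩
    by_contra hc
    obtain ⟨r, rfl⟩ : ∃ i, r = i + 2 := ⟨r - 2, by omega⟩
    obtain ⟨q, rfl⟩ : ∃ q, s = r + 2 + q := ⟨s - (r + 2), by omega⟩
    let _ := Fintype.ofFinite V
    have hn : (0 : ℝ) < (univ : Finset V).card := by exact_mod_cast card_pos.2 univ_nonempty
    have hL := wit_L (r + 2) q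
    rw [show 2 * (r + 2) + q = r + 2 + q + (r + 2) by ring] at hL
    have a1 := le_best hL (r + 2 + q)
    rw [← hall _ (by omega) le_rfl, K_gr _ le_rfl, card_range, add_assoc (r + 2) q 1, U_top,
      ← add_assoc] at a1
    unfold dens at a1
    rw [ncard_clique, Nat.card_eq_fintype_card, ← card_univ, div_le_div_iff₀ (by positivity) hn] at a1
    have a2 := neg_main (G := G) (s := r + 2 + q) (r := r) (by omega)
      (fun v => by rw [← ncard_nbr]; exact hG.1 v) (CF_of_free _ hG.2) (by
        rw [mul_comm (r + 2 + q + (r + 2) + 1),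
          show r + 2 + q + (r + 2) + 1 = 2 * (r + 2) + q + 1 by ring]
        exact_mod_cast a1)
    obtain ⟨G', S, hW, hS⟩ := exists_rival (s := r + 2 + q) (r := r + 2) (by omega) (by omega)
    have a3 := le_best hW 2
    have hn' : (0 : ℝ) < S.card := by exact_mod_cast card_pos.2 hW.1
    rw [← hall _ le_rfl h3] at a3
    unfold dens at a3
    rw [ncard_clique, Nat.card_eq_fintype_card, ← card_univ, div_le_div_iff₀ hn' hn] at a3
    have a4 : K G' S 3 * (univ : Finset V).card ≤ K G univ 3 * S.card := by exact_mod_cast a3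
    have a5 := Nat.mul_lt_mul_of_pos_right hS (card_pos.2 (univ_nonempty (α := V)))
    have a6 := Nat.mul_le_mul_right S.card a2
    have a7 := Nat.mul_le_mul_left (r + 2 + q + (r + 2) + 1) a4
    nlinarith
  · intro hc
    rcases r with _ | p
    · have hL := wit_L 0 s
      simp only [mul_zero, zero_add] at hL
      refine common_of hL fun t ht V _ G hd _ => ?_
      obtain ⟨t, rfl⟩ : ∃ i, t = i + 1 := ⟨t - 1, by omega⟩
      have := K_gr (p := 0) (w := s + 1) (s + 1) (by omega) (t + 1)
      simp only [mul_zero, zero_add] at this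
      rw [this, card_range]
      exact_mod_cast pos_zero hd t
    · obtain ⟨q, rfl⟩ : ∃ q, s = p + 1 + q := ⟨s - (p + 1), by omega⟩
      have hL := wit_L (p + 1) q
      rw [show 2 * (p + 1) + q = p + 1 + q + (p + 1) by ring] at hL
      refine common_of hL fun t ht V _ G hd hcf => ?_
      rw [K_gr _ le_rfl, card_range]
      have := pos_all (G := G) (p := p) (q := q) (by omega) (fun v => (hd v).trans (by omega))
        (fun Q h h' => (hcf Q h h').trans (by omega)) ht
      convert this using 3
      push_cast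
      ring

end Pool.Agent.Results.MP_1b6faf_co.SmallDegree
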